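import Pool.Agent.Lib.MP_270b6b_co.N3.Main
import Pool.Agent.Lib.MP_270b6b_co.F4.Main
import Pool.Agent.Lib.MP_270b6b_co.MC.Main
import Pool.Agent.Lib.MP_270b6b_co.Small
import Pool.Agent.Lib.MP_270b6b_co.Spider14

/-!
# The assertion of Q1 decided for all pairs `(n, m)` but seven

`Holds n m` is the assertion for graphs on `m` vertices. It is true for `n = 3`, `n = 4` and all `m`; true for `m = 2 n + 2`
and every `n ≥ 3`; for `n = 8` and every `n ≥ 10` it is false for all `m ≥ 2 n + 3`; and it is false for `n = 5, m ≥ 16`,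
`n = 6, m ≥ 17`, `n = 7, m ≥ 18`, `n = 9, m ≥ 22`.

Idea for `n = 4`. Let `C` minimise `4 |C| + e(G - C)`, then with `|C|` and then `e(G[C])` maximal. Outside `C` all degrees are at
most `3`, every vertex of `C` has at least `4` neighbours outside. So `(C, V - C)` is a good partition unless some vertex of `C`
has four neighbours in `C`; then `|C|` is `5` or `6` by the number of edges, at most nine edges remain, and a good partition
is given explicitly in each case.

Idea for `m = 2 n + 2`. Let `C` be the complement and `w = n + 1`; `C` has `C(w+1, 2) + 1` edges. Wanted: a set `P` of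
`w + 1` vertices each having two neighbours in `P`, or a partition into two sets of size `w` without isolated
vertices. A set `P` of `w + 1` vertices with most edges in `C` is `R + v` where with `D` the complement of `R` every vertex of
`D` has at most one neighbour in `R`. If `R` and `D` have no isolated vertices we are done. Otherwise a count of the sizes of
the subsets of minimum degree two in `R` and in `D` (a size in `R` and a size in `D` never add up to `w + 1`) shows that `R`
is nearly complete and `D` is nearly a forest, and a minimal subset of `D` which becomes a set of minimum degree two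
together with suitable vertices of `R` gives `P`, except for two families for which the partition is explicit.

Idea for the other part: a vertex (hub) which is adjacent to all others, a graph `H` in which no `n - 1` vertices meet all
stars with `n` leaves; `H` is the join of an independent set with a sparse modification of a complete graph on `n`
vertices, found by computer for `5 ≤ n ≤ 13` and checked inside Lean.
-/

set_option autoImplicit false

namespace Pool.Agent.Results.MP_270b6b_co.TruthTableFour

open Pool.Agent.Lib.MP_270b6b_co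

/-- The assertion of Q1 for graphs on `m` vertices: every graph on `m` vertices with exactly
`e(n) = C(2n+1, 2) - C(n, 2) - 1` edges is the union of a bipartite graph and a graph in which all degrees are
at most `n - 1`. -/
def Holds (n m : ℕ) : Prop :=
  ∀ G : SimpleGraph (Fin m), G.edgeSet.ncard = (2 * n + 1).choose 2 - n.choose 2 - 1 →
    ∃ B D : SimpleGraph (Fin m), B.Colorable 2 ∧ (∀ v, (D.neighborSet v).ncard ≤ n - 1) ∧ G = B ⊔ D

/-- a partition of the vertices gives the two graphs -/
theorem holds_of_split (n m : ℕ)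
    (h : ∀ G : SimpleGraph (Fin m), G.edgeSet.ncard = (2 * n + 1).choose 2 - n.choose 2 - 1 →
      ∃ A : Set (Fin m), (∀ v ∈ A, (G.neighborSet v ∩ A).ncard ≤ n - 1) ∧
        ∀ v ∉ A, (G.neighborSet v \ A).ncard ≤ n - 1) : Holds n m := by
  classical
  intro G hG
  obtain ⟨A, hA1, hA2⟩ := h G hG
  let B : SimpleGraph (Fin m) :=
    { Adj := fun a b => G.Adj a b ∧ ¬ (a ∈ A ↔ b ∈ A)
      symm := ⟨fun a b h => ⟨h.1.symm, fun h' => h.2 h'.symm⟩⟩
      loopless := ⟨fun a h => h.2 Iff.rfl⟩ }
  let D : SimpleGraph (Fin m) :=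
    { Adj := fun a b => G.Adj a b ∧ (a ∈ A ↔ b ∈ A)
      symm := ⟨fun a b h => ⟨h.1.symm, h.2.symm⟩⟩
      loopless := ⟨fun a h => G.irrefl h.1⟩ }
  refine ⟨B, D, ?_, fun v => ?_, ?_⟩
  · refine ⟨SimpleGraph.Coloring.mk (fun v => if v ∈ A then 0 else 1) ?_⟩
    intro a b hab hc
    apply hab.2
    by_cases ha : a ∈ A <;> by_cases hb : b ∈ A <;> simp_all
  · by_cases hv : v ∈ A
    · have : D.neighborSet v = G.neighborSet v ∩ A := by
        ext w
        simp only [SimpleGraph.mem_neighborSet, Set.mem_inter_iff]
        constructor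
        · intro h
          exact ⟨h.1, h.2.1 hv⟩
        · intro h
          exact ⟨h.1, fun _ => h.2, fun _ => hv⟩
      rw [this]
      exact hA1 v hv
    · have : D.neighborSet v = G.neighborSet v \ A := by
        ext w
        simp only [SimpleGraph.mem_neighborSet, Set.mem_sdiff]
        constructor
        · intro h
          exact ⟨h.1, fun hw => hv (h.2.2 hw)⟩
        · intro h
          exact ⟨h.1, fun h' => absurd h' hv, fun h' => absurd h' h.2⟩
      rw [this]
      exact hA2 v hv
  · ext a b
    rw [SimpleGraph.sup_adj]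
    constructor
    · intro h
      by_cases hc : a ∈ A ↔ b ∈ A
      · exact Or.inr ⟨h, hc⟩
      · exact Or.inl ⟨h, hc⟩
    · rintro (h | h)
      · exact h.1
      · exact h.1

/-- the case `n = 3` -/
theorem three (m : ℕ) : Holds 3 m := by
  classical
  apply holds_of_split
  intro G hG
  have hcard : G.edgeFinset.card ≤ 17 := by
    have h1 : G.edgeSet.ncard = G.edgeFinset.card := by
      rw [← SimpleGraph.coe_edgeFinset, Set.ncard_coe_finset]
    have h2 : (2 * 3 + 1).choose 2 - Nat.choose 3 2 - 1 = 17 := by decide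
    rw [h1, h2] at hG
    exact hG.le
  obtain ⟨A, hA1, hA2⟩ := N3.good_of_card_le G hcard
  refine ⟨A, fun v hv => ?_, fun v hv => ?_⟩
  · have : G.neighborSet v ∩ A = ((G.neighborFinset v ∩ A : Finset (Fin m)) : Set (Fin m)) := by
      simp
    rw [this, Set.ncard_coe_finset]
    exact hA1 v hv
  · have : G.neighborSet v \ A = ((G.neighborFinset v \ A : Finset (Fin m)) : Set (Fin m)) := by
      simp
    rw [this, Set.ncard_coe_finset]
    exact hA2 v hv

/-- the case `n = 4` -/
theorem four (m : ℕ) : Holds 4 m := by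
  classical
  apply holds_of_split
  intro G hG
  have hcard : G.edgeFinset.card ≤ 29 := by
    have h1 : G.edgeSet.ncard = G.edgeFinset.card := by
      rw [← SimpleGraph.coe_edgeFinset, Set.ncard_coe_finset]
    have h2 : (2 * 4 + 1).choose 2 - Nat.choose 4 2 - 1 = 29 := by decide
    rw [h1, h2] at hG
    exact hG.le
  obtain ⟨A, hA1, hA2⟩ := Pool.Agent.Lib.MP270b6b.F4.good_of_card_le G hcard
  refine ⟨A, fun v hv => ?_, fun v hv => ?_⟩
  · have : G.neighborSet v ∩ A = ((G.neighborFinset v ∩ A : Finset (Fin m)) : Set (Fin m)) := by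
      simp
    rw [this, Set.ncard_coe_finset]
    exact hA1 v hv
  · have : G.neighborSet v \ A = ((G.neighborFinset v \ A : Finset (Fin m)) : Set (Fin m)) := by
      simp
    rw [this, Set.ncard_coe_finset]
    exact hA2 v hv

/-- the failure for `n = 8` and `n ≥ 10` -/
theorem fails (n m : ℕ) (hn : n = 8 ∨ 10 ≤ n) (hm : 2 * n + 3 ≤ m) : ¬ Holds n m := by
  intro h
  rcases hn with rfl | hn
  · obtain ⟨G, hG, hno⟩ := Small.fails8 m hm
    exact hno (h G hG)
  · rcases Nat.lt_or_ge n 14 with hlt | hge
    · rcases (show n = 10 ∨ n = 11 ∨ n = 12 ∨ n = 13 by omega) with rfl | rfl | rfl | rfl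
      · obtain ⟨G, hG, hno⟩ := Small.fails10 m hm
        exact hno (h G hG)
      · obtain ⟨G, hG, hno⟩ := Small.fails11 m hm
        exact hno (h G hG)
      · obtain ⟨G, hG, hno⟩ := Small.fails12 m hm
        exact hno (h G hG)
      · obtain ⟨G, hG, hno⟩ := Small.fails13 m hm
        exact hno (h G hG)
    · obtain ⟨G, hG, hno⟩ := Spider14.fails n hge m hm
      exact hno (h G hG)

/-- **Theorem.** The assertion is true for `n = 3`, `n = 4` and all `m`, and for `m = 2 n + 2` and every `n ≥ 3`. For `n = 8`
and for every `n ≥ 10` it is true (among `m ≥ 2 n + 2`) exactly if `m = 2 n + 2`. It is false for `n = 5, m ≥ 16`,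
`n = 6, m ≥ 17`, `n = 7, m ≥ 18` and `n = 9, m ≥ 22`. -/
theorem result : (∀ m : ℕ, Holds 3 m) ∧ (∀ m : ℕ, Holds 4 m) ∧
    (∀ n : ℕ, 3 ≤ n → Holds n (2 * n + 2)) ∧
    (∀ n m : ℕ, n = 8 ∨ 10 ≤ n → 2 * n + 2 ≤ m → (Holds n m ↔ m = 2 * n + 2)) ∧
    (∀ m : ℕ, 16 ≤ m → ¬ Holds 5 m) ∧ (∀ m : ℕ, 17 ≤ m → ¬ Holds 6 m) ∧
    (∀ m : ℕ, 18 ≤ m → ¬ Holds 7 m) ∧ (∀ m : ℕ, 22 ≤ m → ¬ Holds 9 m) := by
  have h1 : ∀ n : ℕ, 3 ≤ n → Holds n (2 * n + 2) := by
    intro n hn
    rcases Nat.lt_or_ge n 4 with hlt | hge
    · have : n = 3 := by omega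
      subst this
      exact three _
    · exact fun G hG => MC.twoNPlusTwo n hge G (le_of_eq hG)
  refine ⟨three, four, h1, fun n m hn hm => ⟨fun h => ?_, fun h => ?_⟩, ?_, ?_, ?_, ?_⟩
  · by_contra hne
    exact fails n m hn (by omega) h
  · subst h
    exact h1 n (by omega)
  · intro m hm h
    obtain ⟨G, hG, hno⟩ := Small.fails5 m hm
    exact hno (h G hG)
  · intro m hm h
    obtain ⟨G, hG, hno⟩ := Small.fails6 m hm
    exact hno (h G hG)
  · intro m hm h
    obtain ⟨G, hG, hno⟩ := Small.fails7 m hm
    exact hno (h G hG)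
  · intro m hm h
    obtain ⟨G, hG, hno⟩ := Small.fails9 m hm
    exact hno (h G hG)

end Pool.Agent.Results.MP_270b6b_co.TruthTableFour
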